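import Pool.Agent.TH764.SB.Graph

set_option autoImplicit false
set_option linter.deprecated false

/-!
# The relation `R(κ)` fails for every singular strong limit `κ` with `2 ^ κ = κ⁺`
-/

namespace Pool.Agent.Results.MP_0cbb3c_lc.OrderTypeSharp

open Cardinal Set Pool.Agent.H651R2 Pool.Agent.TH764.SB

universe u

/-- The canonical well-ordered type of order type `κ⁺` (the ordinals below `κ⁺`). -/
abbrev Below (κ : Cardinal.{u}) : Type u := (Order.succ κ).ord.ToType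

/-- The colouring `f` has a copy of a member of `𝒢_κ` in colour `1`: there are `A, B ⊆ κ⁺` of size
`κ⁺` and a map `φ` which is injective on `A ∪ B` and sends each edge `{ξ, η}`, `ξ < η`, `ξ ∈ A`,
`η ∈ B`, of `G(A,B)` to a pair of colour `1`. -/
def HasCopy {κ : Cardinal.{u}} (f : Sym2 (Below κ) → Fin 2) : Prop :=
  ∃ A B : Set (Below κ), #A = Order.succ κ ∧ #B = Order.succ κ ∧
    ∃ φ : Below κ → Below κ, InjOn φ (A ∪ B) ∧ ∀ ξ ∈ A, ∀ η ∈ B, ξ < η → f s(φ ξ, φ η) = 1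

/-- All pairs of elements of `H` have colour `0`. -/
def ZeroHom {κ : Cardinal.{u}} (f : Sym2 (Below κ) → Fin 2) (H : Set (Below κ)) : Prop :=
  ∀ x ∈ H, ∀ y ∈ H, x ≠ y → f s(x, y) = 0

/-- The relation `R(κ)`. -/
def RelR (κ : Cardinal.{u}) : Prop :=
  ∀ f : Sym2 (Below κ) → Fin 2,
    HasCopy f ∨ ∃ H : Set (Below κ), #H = Order.succ κ.ord.cof ∧ ZeroHom f H

/-- a set of large order type has a large initial segment below a non-maximal element -/
lemma exists_two {K : Type u} [LinearOrder K] [WellFoundedLT K] {c : Cardinal.{u}} (H : Set K)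
    (hH : c.ord + 1 < Ordinal.type (α := H) (· < ·)) :
    ∃ β ∈ H, ∃ α ∈ H, β < α ∧ c ≤ #(H ∩ Iio β : Set K) := by
  have h0 : c.ord < Ordinal.type (α := H) (· < ·) :=
    lt_trans (by rw [Ordinal.add_one_eq_succ]; exact Order.lt_succ _) hH
  let β : H := Ordinal.enum (α := H) (· < ·) ⟨c.ord, h0⟩
  let α : H := Ordinal.enum (α := H) (· < ·) ⟨c.ord + 1, hH⟩
  have hβ : Ordinal.typein (α := H) (· < ·) β = c.ord := Ordinal.typein_enum _ _
  have hα : Ordinal.typein (α := H) (· < ·) α = c.ord + 1 := Ordinal.typein_enum _ _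
  have hlt : β < α := by
    rw [← Ordinal.typein_lt_typein (α := H) (· < ·), hβ, hα, Ordinal.add_one_eq_succ]
    exact Order.lt_succ _
  refine ⟨β.1, β.2, α.1, α.2, hlt, ?_⟩
  have h6 : #(Iio β) = c := by
    have h7 := congrArg Ordinal.card hβ
    rw [card_ord] at h7
    rw [← h7]
    rfl
  rw [← h6]
  refine Cardinal.mk_le_of_injective
    (f := fun x : Iio β => (⟨x.1.1, x.1.2, x.2⟩ : (H ∩ Iio β.1 : Set K))) ?_
  intro x y hxy
  have h9 := congrArg (fun z : (H ∩ Iio β.1 : Set K) => z.1) hxy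
  exact Subtype.ext (Subtype.ext h9)

/-- Let `κ` be a singular strong limit cardinal with `2 ^ κ = κ⁺`. Then some colouring of the
pairs of `κ⁺` has no copy of a member of `𝒢_κ` in colour `1`, and all its sets that are homogeneous
in colour `0` have order type at most `cf(κ) + 1`. In particular `R(κ)` fails. -/
theorem result (κ : Cardinal.{u}) (hκ : κ.IsSingular)
    (hstrong : ∀ c < κ, (2 : Cardinal.{u}) ^ c ≤ κ)
    (h2 : (2 : Cardinal.{u}) ^ κ = Order.succ κ) :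
    (∃ f : Sym2 (Below κ) → Fin 2, ¬ HasCopy f ∧
      ∀ H : Set (Below κ), ZeroHom f H →
        Ordinal.type (α := H) (· < ·) ≤ κ.ord.cof.ord + 1) ∧
    ¬ RelR κ := by
  classical
  have hlam : ℵ₀ ≤ κ := hκ.aleph0_le
  have hK : #(Below κ) = Order.succ κ := mk_ord_toType _
  have hI : ∀ a : Below κ, #(Iio a) ≤ κ := by
    intro a
    have h := mk_Iio_lt a (by rw [hK]; simp [Below])
    rw [hK] at h
    exact Order.lt_succ_iff.1 h
  obtain ⟨N, hN1, hN2, hN3⟩ := exists_clique_free (K := Below κ) hκ hstrong h2 hK hI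
  let f : Sym2 (Below κ) → Fin 2 := fun s => if ∃ x y, s = s(x, y) ∧ x ∈ N y then 0 else 1
  have hf0 : ∀ x y, x ∈ N y → f s(x, y) = 0 := fun x y h => if_pos ⟨x, y, rfl, h⟩
  have hcof : ℵ₀ ≤ κ.ord.cof :=
    Ordinal.aleph0_le_cof.2 (Cardinal.isSuccLimit_ord hlam)
  have hno : ¬ HasCopy f := by
    rintro ⟨A, B, hA, hB, φ, hφ, hf⟩
    -- the image of `A` is unbounded
    have hunb : ∀ γ, ∃ α ∈ φ '' A, γ < α := by
      intro γ
      by_contra hcon
      push Not at hcon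
      have h3 : #(φ '' A) ≤ κ := small_mono (t := Iic γ) hcon (small_Iic hlam (hI γ))
      rw [Cardinal.mk_image_eq_of_injOn φ A (hφ.mono subset_union_left), hA] at h3
      exact absurd h3 (not_le.2 (Order.lt_succ κ))
    obtain ⟨A₀, hA₀, hA₀c, b, hb⟩ := hN3 (φ '' A) hunb
    have hA1 : #{ξ | ξ ∈ A ∧ φ ξ ∈ A₀} ≤ κ := by
      refine le_trans ?_ hA₀c
      refine Cardinal.mk_le_of_injective
        (f := fun ξ : {ξ | ξ ∈ A ∧ φ ξ ∈ A₀} => (⟨φ ξ.1, ξ.2.2⟩ : A₀)) ?_
      intro x y hxy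
      exact Subtype.ext (hφ (Or.inl x.2.1) (Or.inl y.2.1) (Subtype.ext_iff.1 hxy))
    obtain ⟨γ, hγ⟩ := strict_bound hlam hK hI _ hA1
    have hB1 : ¬ #B ≤ κ := by
      rw [hB]
      exact not_le.2 (Order.lt_succ κ)
    have hB2 : #({η | η ∈ B ∧ φ η ≤ b} ∪ Iic γ : Set (Below κ)) ≤ κ := by
      refine small_union hlam ?_ (small_Iic hlam (hI γ))
      refine le_trans ?_ (small_Iic hlam (hI b))
      refine Cardinal.mk_le_of_injective
        (f := fun η : {η | η ∈ B ∧ φ η ≤ b} => (⟨φ η.1, η.2.2⟩ : Iic b)) ?_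
      intro x y hxy
      exact Subtype.ext (hφ (Or.inr x.2.1) (Or.inr y.2.1) (Subtype.ext_iff.1 hxy))
    obtain ⟨η, hηB, hη⟩ := exists_of_not_small (not_small_diff hlam hB1 hB2)
    have hη1 : b < φ η := by
      by_contra h
      exact hη (Or.inl ⟨hηB, not_lt.1 h⟩)
    have hη2 : γ < η := by
      by_contra h
      exact hη (Or.inr (not_lt.1 h))
    obtain ⟨x, hxN, hxA⟩ := hb (φ η) hη1
    obtain ⟨ξ, hξA, rfl⟩ := hA₀ hxA
    have hξη : ξ < η := (hγ ξ ⟨hξA, hxA⟩).trans hη2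
    have h3 := hf ξ hξA η hηB hξη
    rw [hf0 _ _ hxN] at h3
    exact absurd h3 (by decide)
  have hhom : ∀ H : Set (Below κ), ZeroHom f H →
      Ordinal.type (α := H) (· < ·) ≤ κ.ord.cof.ord + 1 := by
    intro H hf
    by_contra hcon
    rw [not_le] at hcon
    have hcl : ∀ x ∈ H, ∀ y ∈ H, x < y → x ∈ N y := by
      intro x hx y hy hxy
      by_contra hnot
      have h3 : ¬ ∃ x' y', s(x, y) = s(x', y') ∧ x' ∈ N y' := by
        rintro ⟨x', y', hs, hmem⟩
        rcases Sym2.eq_iff.1 hs with ⟨rfl, rfl⟩ | ⟨rfl, rfl⟩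
        · exact hnot hmem
        · exact absurd (hN1 _ hmem) (not_lt.2 hxy.le)
      have h4 := hf x hx y hy (ne_of_lt hxy)
      have h5 : f s(x, y) = 1 := if_neg h3
      rw [h5] at h4
      exact absurd h4 (by decide)
    obtain ⟨β, hβ, α, hα, hβα, hc⟩ := exists_two H hcon
    refine absurd (hN2 α β (hcl β hβ α hα hβα) (H ∩ Iio β) ?_ ?_) (not_lt.2 hc)
    · rintro x ⟨hx, hxβ⟩
      exact ⟨hcl x hx α hα (lt_trans hxβ hβα), hcl x hx β hβ hxβ⟩
    · intro x hx y hy hxy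
      exact hcl x hx.1 y hy.1 hxy
  refine ⟨⟨f, hno, hhom⟩, fun hR => ?_⟩
  rcases hR f with h | ⟨H, hH, hf⟩
  · exact hno h
  · have h1 := Ordinal.card_le_card (hhom H hf)
    rw [Ordinal.card_type, hH, Ordinal.card_add, card_ord, Ordinal.card_one,
      Cardinal.add_eq_left hcof (one_le_aleph0.trans hcof)] at h1
    exact absurd h1 (not_le.2 (Order.lt_succ _))

end Pool.Agent.Results.MP_0cbb3c_lc.OrderTypeSharp
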